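import Mathlib

/-!
# Infinitely many `n` such that every `n - 2 ^ k` (`k ≥ 1`, `2 ^ k < n`) is squarefree

Let `z` be a large prime, `M` the product of the odd primes up to `z` (so `M ≤ 4 ^ z`) and
`T = 2 ^ (4 z)`. Consider the odd multiples `n = M (2 s + 1)`, `s < T`, of `M`; they are less than
`2 ^ (6 z + 1)`.

* No prime `q ≤ z` divides `n - 2 ^ k`.
* For a prime `q > z` and `k ≤ 6 z` at most `T / q ^ 2 + 1` of the `s < T` are such that `q ^ 2`
  divides `n - 2 ^ k`, and only the `q < 2 ^ (3 z + 1)` matter. By the bound of Chebyshev the sum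
  of `1 / q ^ 2` over the primes `q > z` is `O(1 / (z log z))`, so that less than `T` of the `s`
  are excluded in total.
-/

set_option autoImplicit false

namespace Pool.Agent.Results.MP_fcd74d_nt.InfinitelyManyGood
open Finset

/-- A set of natural numbers below `T` that are pairwise congruent modulo `q` has at most
`T / q + 1` elements. -/
lemma card_le (T q : ℕ) (hq : 0 < q) (P : ℕ → Prop) [DecidablePred P]
    (h : ∀ s t, P s → P t → s ≡ t [MOD q]) : ((range T).filter P).card ≤ T / q + 1 := by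
  rcases ((range T).filter P).eq_empty_or_nonempty with h0 | ⟨s0, hs0⟩
  · rw [h0]; simp
  · have hs0' := (mem_filter.1 hs0).2
    calc ((range T).filter P).card ≤ ((range T).filter (fun s => s ≡ s0 [MOD q])).card := by
          apply card_le_card
          intro s hs
          rw [mem_filter] at hs ⊢
          exact ⟨hs.1, h s s0 hs.2 hs0'⟩
      _ = Nat.count (fun s => s ≡ s0 [MOD q]) T := by rw [Nat.count_eq_card_filter_range]
      _ ≤ T / q + 1 := by
          rw [Nat.count_modEq_card _ hq]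
          split_ifs <;> omega

/-- The primes in `(z, y]`. -/
def pr (z y : ℕ) : Finset ℕ := (Ioc z y).filter Nat.Prime

/-- The tail of the sum of `1 / p ^ 2`. -/
lemma tail (z : ℕ) (hz : 2 ≤ z) (I : ℕ) :
    ∑ p ∈ pr z (2 ^ I * z), (1 : ℝ) / (p : ℝ) ^ 2 ≤
      4 * Real.log 4 / (z * Real.log z) * (1 - 1 / 2 ^ I) := by
  have hzr : (2 : ℝ) ≤ z := by exact_mod_cast hz
  have hlz : 0 < Real.log z := Real.log_pos (by linarith)
  have hl4 : 0 < Real.log 4 := Real.log_pos (by norm_num)
  induction I with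
  | zero => simp [pr]
  | succ I ih =>
    have hsplit : pr z (2 ^ (I + 1) * z) = pr z (2 ^ I * z) ∪ pr (2 ^ I * z) (2 ^ (I + 1) * z) := by
      unfold pr
      rw [← filter_union]
      congr 1
      rw [Ioc_union_Ioc_eq_Ioc]
      · exact Nat.le_mul_of_pos_left _ (by positivity)
      · exact Nat.mul_le_mul_right _ (Nat.pow_le_pow_right (by norm_num) (by omega))
    have hdisj : Disjoint (pr z (2 ^ I * z)) (pr (2 ^ I * z) (2 ^ (I + 1) * z)) := by
      unfold pr
      apply disjoint_filter_filter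
      rw [disjoint_left]
      intro a h1 h2
      rw [mem_Ioc] at h1 h2
      omega
    rw [hsplit, sum_union hdisj]
    have hstep : ∑ p ∈ pr (2 ^ I * z) (2 ^ (I + 1) * z), (1 : ℝ) / (p : ℝ) ^ 2 ≤
        4 * Real.log 4 / (z * Real.log z) * (1 / 2 ^ (I + 1)) := by
      have h1 : ∀ p ∈ pr (2 ^ I * z) (2 ^ (I + 1) * z), (1 : ℝ) / (p : ℝ) ^ 2 ≤
          (1 / (Real.log z * (2 ^ I * z) ^ 2)) * Real.log p := by
        intro p hp
        unfold pr at hp
        rw [mem_filter, mem_Ioc] at hp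
        have hp1 : (2 : ℝ) ^ I * z ≤ p := by exact_mod_cast hp.1.1.le
        have hz1 : (z : ℝ) ≤ (2 : ℝ) ^ I * z := by
          have : (1 : ℝ) ≤ 2 ^ I := one_le_pow₀ (by norm_num)
          nlinarith
        have hp2 : Real.log z ≤ Real.log p := Real.log_le_log (by linarith) (by linarith)
        have hpos : (0 : ℝ) < 2 ^ I * z := by positivity
        have hp0 : (0 : ℝ) < p := by linarith
        rw [div_mul_eq_mul_div, one_mul, div_le_div_iff₀ (by positivity) (by positivity), one_mul]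
        apply mul_le_mul hp2 _ (by positivity) (by linarith)
        exact pow_le_pow_left₀ hpos.le hp1 2
      refine (sum_le_sum h1).trans ?_
      rw [← mul_sum]
      have h2 : ∑ p ∈ pr (2 ^ I * z) (2 ^ (I + 1) * z), Real.log p ≤
          Real.log 4 * (2 ^ (I + 1) * z) := by
        calc ∑ p ∈ pr (2 ^ I * z) (2 ^ (I + 1) * z), Real.log p ≤
            Chebyshev.theta ((2 ^ (I + 1) * z : ℕ) : ℝ) := by
              unfold Chebyshev.theta pr
              rw [Nat.floor_natCast]
              apply sum_le_sum_of_subset_of_nonneg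
              · intro p hp
                rw [mem_filter, mem_Ioc] at hp ⊢
                exact ⟨⟨hp.2.pos, hp.1.2⟩, hp.2⟩
              · intro p hp _
                rw [mem_filter] at hp
                exact Real.log_nonneg (by exact_mod_cast hp.2.one_lt.le)
          _ ≤ Real.log 4 * ((2 ^ (I + 1) * z : ℕ) : ℝ) :=
              Chebyshev.theta_le_log4_mul_x (by positivity)
          _ = _ := by push_cast; ring
      calc 1 / (Real.log z * (2 ^ I * z) ^ 2) *
            ∑ p ∈ pr (2 ^ I * z) (2 ^ (I + 1) * z), Real.log p ≤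
          1 / (Real.log z * (2 ^ I * z) ^ 2) * (Real.log 4 * (2 ^ (I + 1) * z)) := by
            apply mul_le_mul_of_nonneg_left h2 (by positivity)
        _ = 4 * Real.log 4 / (z * Real.log z) * (1 / 2 ^ (I + 1)) := by
            field_simp
            ring
    calc _ ≤ 4 * Real.log 4 / (z * Real.log z) * (1 - 1 / 2 ^ I) +
          4 * Real.log 4 / (z * Real.log z) * (1 / 2 ^ (I + 1)) := add_le_add ih hstep
      _ = _ := by
          field_simp
          ring

lemma tail' (z : ℕ) (hz : 2 ≤ z) (Y : ℕ) :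
    ∑ p ∈ pr z Y, (1 : ℝ) / (p : ℝ) ^ 2 ≤ 4 * Real.log 4 / (z * Real.log z) := by
  have hzr : (2 : ℝ) ≤ z := by exact_mod_cast hz
  have hlz : 0 < Real.log z := Real.log_pos (by linarith)
  have hl4 : 0 < Real.log 4 := Real.log_pos (by norm_num)
  calc ∑ p ∈ pr z Y, (1 : ℝ) / (p : ℝ) ^ 2 ≤ ∑ p ∈ pr z (2 ^ Y * z), (1 : ℝ) / (p : ℝ) ^ 2 := by
        apply sum_le_sum_of_subset_of_nonneg
        · unfold pr
          apply filter_subset_filter
          apply Ioc_subset_Ioc_right
          calc Y ≤ 2 ^ Y := Nat.lt_two_pow_self.le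
            _ ≤ 2 ^ Y * z := Nat.le_mul_of_pos_right _ (by omega)
        · intros; positivity
    _ ≤ _ := tail z hz Y
    _ ≤ 4 * Real.log 4 / (z * Real.log z) * 1 := by
        apply mul_le_mul_of_nonneg_left _ (by positivity)
        have : (0 : ℝ) ≤ 1 / 2 ^ Y := by positivity
        linarith
    _ = _ := mul_one _

/-- The product of the odd primes up to `z`. -/
def M (z : ℕ) : ℕ := ∏ p ∈ (Icc 3 z).filter Nat.Prime, p

lemma M_le (z : ℕ) : M z ≤ 4 ^ z := by
  refine le_trans ?_ (primorial_le_four_pow z)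
  unfold M primorial
  apply prod_le_prod_of_subset_of_one_le'
  · intro p hp
    rw [mem_filter, mem_Icc] at hp
    rw [mem_filter, mem_range]
    exact ⟨by omega, hp.2⟩
  · intro p hp _
    rw [mem_filter] at hp
    exact hp.2.one_lt.le

lemma dvd_M (z q : ℕ) (hq : q.Prime) (h2 : q ≠ 2) (hqz : q ≤ z) : q ∣ M z := by
  unfold M
  apply dvd_prod_of_mem
  rw [mem_filter, mem_Icc]
  have := hq.two_le
  exact ⟨⟨by omega, hqz⟩, hq⟩

lemma not_dvd_M (z q : ℕ) (hq : q.Prime) (hqz : z < q) : ¬ q ∣ M z := by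
  unfold M
  rw [Prime.dvd_finsetProd_iff hq.prime]
  rintro ⟨p, hp, hqp⟩
  rw [mem_filter, mem_Icc] at hp
  have := Nat.le_of_dvd hp.2.pos hqp
  omega

lemma two_not_dvd_M (z : ℕ) : ¬ 2 ∣ M z := by
  unfold M
  rw [Prime.dvd_finsetProd_iff Nat.prime_two.prime]
  rintro ⟨p, hp, hqp⟩
  rw [mem_filter, mem_Icc] at hp
  rw [Nat.prime_dvd_prime_iff_eq Nat.prime_two hp.2] at hqp
  omega

lemma M_pos (z : ℕ) : 0 < M z := Nat.pos_of_ne_zero (fun h => two_not_dvd_M z (by rw [h]; simp))

/-- the number `s < T` is bad for `k` and `q` -/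
def Bad (z k q s : ℕ) : Prop := ((q : ℤ) ^ 2 ∣ ((M z * (2 * s + 1) : ℕ) : ℤ) - 2 ^ k)

open Classical in
lemma card_bad (z k q T : ℕ) (hq : q.Prime) (hz : 2 ≤ z) (hqz : z < q) :
    (((range T).filter (Bad z k q)).card : ℝ) ≤ T * (1 / (q : ℝ) ^ 2) + 1 := by
  have h : ((range T).filter (Bad z k q)).card ≤ T / q ^ 2 + 1 := by
    apply card_le T (q ^ 2) (pow_pos hq.pos 2)
    intro s t hs ht
    unfold Bad at hs ht
    have h1 := dvd_sub hs ht
    have h2 : (((M z * (2 * s + 1) : ℕ) : ℤ) - 2 ^ k) - (((M z * (2 * t + 1) : ℕ) : ℤ) - 2 ^ k) =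
        ((M z * 2 : ℕ) : ℤ) * ((s : ℤ) - t) := by
      push_cast; ring
    rw [h2] at h1
    have hc : Nat.Coprime (q ^ 2) (M z * 2) := by
      apply Nat.Coprime.pow_left
      rw [Nat.Prime.coprime_iff_not_dvd hq, hq.dvd_mul]
      push Not
      refine ⟨not_dvd_M z q hq hqz, ?_⟩
      intro h3
      rw [Nat.prime_dvd_prime_iff_eq hq Nat.prime_two] at h3
      omega
    have hc' : IsCoprime ((q : ℤ) ^ 2) ((M z * 2 : ℕ) : ℤ) := by
      have := Nat.isCoprime_iff_coprime.2 hc
      push_cast at this ⊢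
      exact this
    have h3 := hc'.dvd_of_dvd_mul_left h1
    rw [← Int.natCast_modEq_iff]
    apply Int.ModEq.symm
    rw [Int.modEq_iff_dvd]
    push_cast
    exact h3
  calc (((range T).filter (Bad z k q)).card : ℝ) ≤ ((T / q ^ 2 + 1 : ℕ) : ℝ) := by exact_mod_cast h
    _ = ((T / q ^ 2 : ℕ) : ℝ) + 1 := by push_cast; ring
    _ ≤ (T : ℝ) / ((q ^ 2 : ℕ) : ℝ) + 1 := by
        gcongr
        exact Nat.cast_div_le
    _ = _ := by push_cast; ring

open Classical in
/-- Some `s < T` is not bad. -/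
lemma exists_good (z : ℕ) (hz : 2 ≤ z) (hbig : 72 * Real.log 4 < Real.log z)
    (hz8 : (6 * z + 1) * 2 ^ (3 * z + 1) * 2 ≤ 2 ^ (4 * z)) :
    ∃ s < 2 ^ (4 * z), ∀ k < 6 * z + 1, ∀ q ∈ pr z (2 ^ (3 * z + 1)), ¬ Bad z k q s := by
  by_contra hcon
  push Not at hcon
  set T := 2 ^ (4 * z) with hT
  set Y := 2 ^ (3 * z + 1) with hY
  have hzr : (2 : ℝ) ≤ z := by exact_mod_cast hz
  have hlz : 0 < Real.log z := Real.log_pos (by linarith)
  have hl4 : 0 < Real.log 4 := Real.log_pos (by norm_num)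
  have hsub : range T ⊆ (range (6 * z + 1)).biUnion (fun k => (pr z Y).biUnion
      (fun q => (range T).filter (Bad z k q))) := by
    intro s hs
    rw [mem_range] at hs
    obtain ⟨k, hk, q, hq, hb⟩ := hcon s hs
    rw [mem_biUnion]
    refine ⟨k, mem_range.2 hk, ?_⟩
    rw [mem_biUnion]
    exact ⟨q, hq, mem_filter.2 ⟨mem_range.2 hs, hb⟩⟩
  have h1 : (T : ℝ) ≤ ∑ k ∈ range (6 * z + 1), ∑ q ∈ pr z Y,
      (((range T).filter (Bad z k q)).card : ℝ) := by
    have h2 := card_le_card hsub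
    rw [card_range] at h2
    have h3 : T ≤ ∑ k ∈ range (6 * z + 1), ∑ q ∈ pr z Y, ((range T).filter (Bad z k q)).card := by
      refine h2.trans (card_biUnion_le.trans ?_)
      exact sum_le_sum (fun k _ => card_biUnion_le)
    exact_mod_cast h3
  have h2 : ∑ k ∈ range (6 * z + 1), ∑ q ∈ pr z Y, (((range T).filter (Bad z k q)).card : ℝ) ≤
      ∑ k ∈ range (6 * z + 1), ((T : ℝ) * (4 * Real.log 4 / (z * Real.log z)) + Y) := by
    apply sum_le_sum
    intro k _
    calc ∑ q ∈ pr z Y, (((range T).filter (Bad z k q)).card : ℝ) ≤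
        ∑ q ∈ pr z Y, ((T : ℝ) * (1 / (q : ℝ) ^ 2) + 1) := by
          apply sum_le_sum
          intro q hq
          unfold pr at hq
          rw [mem_filter, mem_Ioc] at hq
          exact card_bad z k q T hq.2 hz hq.1.1
      _ = (T : ℝ) * ∑ q ∈ pr z Y, (1 / (q : ℝ) ^ 2) + (pr z Y).card := by
          rw [sum_add_distrib, ← mul_sum]
          simp
      _ ≤ _ := by
          apply add_le_add
          · exact mul_le_mul_of_nonneg_left (tail' z hz Y) (by positivity)
          · have : (pr z Y).card ≤ Y := by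
              unfold pr
              refine (card_filter_le _ _).trans ?_
              rw [Nat.card_Ioc]
              exact Nat.sub_le _ _
            exact_mod_cast this
  have h3 := h1.trans h2
  rw [sum_const, card_range, nsmul_eq_mul, mul_add] at h3
  have hTpos : (0 : ℝ) < T := by rw [hT]; positivity
  have h4 : (((6 * z + 1 : ℕ) : ℝ)) * ((T : ℝ) * (4 * Real.log 4 / (z * Real.log z))) < T / 2 := by
    have h5 : (((6 * z + 1 : ℕ) : ℝ)) ≤ 7 * z := by push_cast; linarith
    calc (((6 * z + 1 : ℕ) : ℝ)) * ((T : ℝ) * (4 * Real.log 4 / (z * Real.log z))) ≤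
        (7 * z) * ((T : ℝ) * (4 * Real.log 4 / (z * Real.log z))) :=
          mul_le_mul_of_nonneg_right h5 (by positivity)
      _ = T * (28 * Real.log 4 / Real.log z) := by
          field_simp
          ring
      _ < T * (1 / 2) := by
          apply mul_lt_mul_of_pos_left _ hTpos
          rw [div_lt_div_iff₀ hlz (by norm_num)]
          linarith
      _ = T / 2 := by ring
  have h6 : (((6 * z + 1 : ℕ) : ℝ)) * (Y : ℝ) ≤ T / 2 := by
    rw [le_div_iff₀ (by norm_num)]
    exact_mod_cast hz8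
  linarith

lemma good_of (z s : ℕ) (hz : 2 ≤ z) (hs : s < 2 ^ (4 * z))
    (h : ∀ k < 6 * z + 1, ∀ q ∈ pr z (2 ^ (3 * z + 1)), ¬ Bad z k q s) (k : ℕ) (hk : 1 ≤ k)
    (hkn : 2 ^ k < M z * (2 * s + 1)) : Squarefree (M z * (2 * s + 1) - 2 ^ k) := by
  have hn : M z * (2 * s + 1) < 2 ^ (6 * z + 1) := by
    calc M z * (2 * s + 1) < M z * (2 * 2 ^ (4 * z)) := by
          apply Nat.mul_lt_mul_of_pos_left _ (M_pos z)
          omega
      _ ≤ 4 ^ z * (2 * 2 ^ (4 * z)) := Nat.mul_le_mul_right _ (M_le z)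
      _ = 2 ^ (6 * z + 1) := by
          rw [show (4 : ℕ) = 2 ^ 2 by norm_num, ← pow_mul]
          ring
  have hk6 : k < 6 * z + 1 := by
    by_contra hcon
    push Not at hcon
    have := Nat.pow_le_pow_right (n := 2) (by norm_num) hcon
    omega
  rw [Nat.squarefree_iff_prime_squarefree]
  intro q hq hqd
  have hcast : ((M z * (2 * s + 1) - 2 ^ k : ℕ) : ℤ) =
      ((M z * (2 * s + 1) : ℕ) : ℤ) - 2 ^ k := by
    rw [Nat.cast_sub hkn.le]
    push_cast
    ring
  have hqd' : q ∣ M z * (2 * s + 1) - 2 ^ k := dvd_trans (dvd_mul_right q q) hqd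
  by_cases hqz : q ≤ z
  · by_cases h2 : q = 2
    · subst h2
      have h3 : ¬ 2 ∣ M z * (2 * s + 1) := by
        rw [Nat.prime_two.dvd_mul]
        push Not
        exact ⟨two_not_dvd_M z, by omega⟩
      apply h3
      have h4 : 2 ∣ 2 ^ k := dvd_pow_self 2 (by omega)
      have h5 := dvd_add hqd' h4
      rwa [Nat.sub_add_cancel hkn.le] at h5
    · have h3 : q ∣ M z * (2 * s + 1) := (dvd_M z q hq h2 hqz).mul_right _
      have h4 : q ∣ 2 ^ k := (Nat.dvd_sub_iff_right hkn.le h3).1 hqd'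
      have h5 := hq.dvd_of_dvd_pow h4
      rw [Nat.prime_dvd_prime_iff_eq hq Nat.prime_two] at h5
      exact h2 h5
  · push Not at hqz
    have hle : q * q ≤ M z * (2 * s + 1) - 2 ^ k := Nat.le_of_dvd (by omega) hqd
    have hqY : q ≤ 2 ^ (3 * z + 1) := by
      by_contra hcon
      push Not at hcon
      have h1 : 2 ^ (3 * z + 1) * 2 ^ (3 * z + 1) ≤ q * q := Nat.mul_le_mul hcon.le hcon.le
      have h2 : 2 ^ (6 * z + 1) ≤ 2 ^ (3 * z + 1) * 2 ^ (3 * z + 1) := by
        rw [← pow_add]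
        exact Nat.pow_le_pow_right (by norm_num) (by omega)
      have h3 : q * q < 2 ^ (6 * z + 1) := (hle.trans (Nat.sub_le _ _)).trans_lt hn
      exact absurd h3 (not_lt.2 (h2.trans h1))
    refine h k hk6 q ?_ ?_
    · unfold pr
      rw [mem_filter, mem_Ioc]
      exact ⟨⟨hqz, hqY⟩, hq⟩
    · unfold Bad
      rw [← hcast, ← Nat.cast_pow, sq]
      exact_mod_cast hqd

/-- There are infinitely many `n` such that `n - 2 ^ k` is squarefree for every `k ≥ 1` with
`2 ^ k < n`. -/
theorem result :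
    {n : ℕ | 3 ≤ n ∧ ∀ k : ℕ, 1 ≤ k → 2 ^ k < n → Squarefree (n - 2 ^ k)}.Infinite := by
  rw [Set.infinite_iff_exists_gt]
  intro a
  have hev : ∀ᶠ z : ℕ in Filter.atTop, 72 * Real.log 4 < Real.log z ∧
      (6 * z + 1) * 2 ^ (3 * z + 1) * 2 ≤ 2 ^ (4 * z) := by
    apply Filter.Eventually.and
    · exact (Real.tendsto_log_atTop.comp tendsto_natCast_atTop_atTop).eventually_gt_atTop _
    · filter_upwards [Filter.eventually_ge_atTop 16] with z hz
      have h1 : 4 * (6 * z + 1) ≤ 2 ^ z := by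
        induction z, hz using Nat.le_induction with
        | base => norm_num
        | succ n hn ih =>
          rw [pow_succ]
          omega
      calc (6 * z + 1) * 2 ^ (3 * z + 1) * 2 = 4 * (6 * z + 1) * 2 ^ (3 * z) := by ring
        _ ≤ 2 ^ z * 2 ^ (3 * z) := Nat.mul_le_mul_right _ h1
        _ = 2 ^ (4 * z) := by rw [← pow_add]; congr 1; ring
  obtain ⟨Z, hZ⟩ := Filter.eventually_atTop.1 hev
  obtain ⟨z, hzZ, hzp⟩ := Nat.exists_infinite_primes (max Z (a + 3))
  have hz1 : Z ≤ z := (le_max_left _ _).trans hzZ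
  have hz2 : a + 3 ≤ z := (le_max_right _ _).trans hzZ
  obtain ⟨h1, h2⟩ := hZ z hz1
  obtain ⟨s, hs, hgood⟩ := exists_good z (by omega) h1 h2
  have hMz : z ≤ M z := Nat.le_of_dvd (M_pos z) (dvd_M z z hzp (by omega) le_rfl)
  have hn : z ≤ M z * (2 * s + 1) := hMz.trans (Nat.le_mul_of_pos_right _ (by omega))
  exact ⟨M z * (2 * s + 1), ⟨by omega, fun k hk hkn => good_of z s (by omega) hs hgood k hk hkn⟩,
    by omega⟩

end Pool.Agent.Results.MP_fcd74d_nt.InfinitelyManyGood
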